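import Pool.Agent.Helper40_Dio.AStmt

/-! # DIO, module CLZ (classification of the solutions for `z`).  helper65 -/

set_option autoImplicit false

namespace Pool.Agent.DIO.H65

theorem sqg_succ' (a c s z x : ℤ) (m : ℕ) :
    sqg a c s z x (m + 1) = sqg a c s (s * z + c * x) (s * x + a * z) m := by
  induction m with
  | zero => rfl
  | succ m ih =>
    change (s * (sqg a c s z x (m + 1)).1 + c * (sqg a c s z x (m + 1)).2,
      s * (sqg a c s z x (m + 1)).2 + a * (sqg a c s z x (m + 1)).1) = _
    rw [ih]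
    rfl

theorem sqg_mod (a c s z x : ℤ) (hs : s * s = a * c + 1) (m : ℕ) :
    (Even m → c ∣ (sqg a c s z x m).1 - z) ∧ (¬ Even m → c ∣ (sqg a c s z x m).1 - s * z) := by
  induction m with
  | zero => exact ⟨fun _ => by simp [sqg], fun h => absurd (by simp) h⟩
  | succ m ih =>
    have e1 : (sqg a c s z x (m + 1)).1 = s * (sqg a c s z x m).1 + c * (sqg a c s z x m).2 := rfl
    rw [e1]
    refine ⟨fun h => ?_, fun h => ?_⟩
    · have hm : ¬ Even m := by
        rw [Nat.even_add_one] at h
        exact h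
      obtain ⟨u, hu⟩ := ih.2 hm
      refine ⟨s * u + (sqg a c s z x m).2 + a * z, ?_⟩
      linear_combination s * hu + z * hs
    · have hm : Even m := by
        rw [Nat.even_add_one, not_not] at h
        exact h
      obtain ⟨u, hu⟩ := ih.1 hm
      refine ⟨s * u + (sqg a c s z x m).2, ?_⟩
      linear_combination s * hu

theorem eq_of_dvd (c u v : ℤ) (hc : 0 < c) (h : c ∣ u - v) (hu : 4 * u ^ 2 < c ^ 2)
    (hv : 4 * v ^ 2 < c ^ 2) : u = v := by
  have h1 : |2 * u| < c := abs_lt_of_sq_lt_sq (by nlinarith) hc.le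
  have h2 : |2 * v| < c := abs_lt_of_sq_lt_sq (by nlinarith) hc.le
  rw [abs_lt] at h1 h2
  have h3 : |u - v| < c := by rw [abs_lt]; constructor <;> linarith
  have := Int.eq_zero_of_abs_lt_dvd h h3
  linarith

theorem not_sq (a p : ℤ) (ha : 0 < a) : a * a + 1 ≠ p * p := by
  intro h
  have h0 : a * a + 1 = |p| * |p| := by rw [abs_mul_abs_self]; exact h
  have hp : 0 ≤ |p| := abs_nonneg p
  rcases lt_trichotomy (|p|) a with h1 | h1 | h1
  · nlinarith
  · rw [h1] at h0; linarith
  · nlinarith

theorem one_of_sq (p : ℤ) (hp : 0 < p) (h : p * p = 1) : p = 1 := by nlinarith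

theorem pm_of_sq (p : ℤ) (h : p * p = 1) : p = 1 ∨ p = -1 := by
  have : (p - 1) * (p + 1) = 0 := by linarith
  rcases mul_eq_zero.1 this with h | h
  · left; linarith
  · right; linarith

/-- LEMMA D -/
theorem lemD (hN : NseStatement) (a b c r : ℕ) (hE : Euler a b c r) (w p q : ℤ)
    (h1 : (a : ℤ) * w ^ 2 - c * p ^ 2 = (a : ℤ) - c) (h2 : (b : ℤ) * w ^ 2 - c * q ^ 2 = (b : ℤ) - c)
    (h3 : 4 * w ^ 2 < (c : ℤ) ^ 2) (h4 : (c : ℤ) ∣ w * w - 1) :
    w * w = 1 ∧ p * p = 1 ∧ q * q = 1 := by
  obtain ⟨ha, hab, hr, hc⟩ := hE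
  have hcpos : (2 : ℤ) < (c : ℤ) := by
    have : 2 < c := by
      have : 0 < r := by
        rcases Nat.eq_zero_or_pos r with h | h
        · rw [h] at hr; omega
        · exact h
      omega
    exact_mod_cast this
  obtain ⟨d, hd⟩ := h4
  have hapos : (0 : ℤ) < a := by exact_mod_cast ha
  have hbpos : (0 : ℤ) < b := by exact_mod_cast lt_trans ha hab
  have hw : 1 ≤ w * w := by
    by_contra hcon
    have h0 : w * w = 0 := le_antisymm (by omega) (mul_self_nonneg w)
    rw [h0] at hd
    have hdd : (c : ℤ) ∣ 1 := ⟨-d, by linarith⟩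
    have := Int.le_of_dvd one_pos hdd
    omega
  have hd0 : 0 ≤ d := by
    by_contra hcon
    push Not at hcon
    nlinarith
  have hp : (a : ℤ) * d + 1 = p * p := by
    have : (c : ℤ) * (a * d + 1 - p * p) = 0 := by
      linear_combination h1 - a * hd
    rcases mul_eq_zero.1 this with h | h
    · omega
    · linarith
  have hq : (b : ℤ) * d + 1 = q * q := by
    have : (c : ℤ) * (b * d + 1 - q * q) = 0 := by
      linear_combination h2 - b * hd
    rcases mul_eq_zero.1 this with h | h
    · omega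
    · linarith
  have hw' : (c : ℤ) * d + 1 = w * w := by linarith
  have hdc : d < c := by
    by_contra hcon
    push Not at hcon
    nlinarith
  rcases hd0.eq_or_lt with h | h
  · rw [← h] at hp hq hw'
    refine ⟨by linarith, by linarith, by linarith⟩
  · exfalso
    obtain ⟨D, rfl⟩ := Int.eq_ofNat_of_zero_le hd0
    apply hN a b c r D ⟨ha, hab, hr, hc⟩ (by exact_mod_cast hdc)
    refine ⟨by exact_mod_cast h, ?_, ?_, ?_, ?_, ?_, ?_⟩
    · rintro rfl
      exact not_sq _ _ hapos hp
    · rintro rfl
      exact not_sq _ _ hbpos hq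
    · rintro rfl
      exact lt_irrefl _ hdc
    · refine ⟨p.natAbs, ?_⟩
      zify
      rw [abs_mul_abs_self]
      exact hp
    · refine ⟨q.natAbs, ?_⟩
      zify
      rw [abs_mul_abs_self]
      exact hq
    · refine ⟨w.natAbs, ?_⟩
      zify
      rw [abs_mul_abs_self]
      exact hw'

/-- the neighbour of a small solution with `y ≥ 2` is small -/
theorem small (b c t z y : ℤ) (hb : 0 < b) (hbc : b < c) (ht : 0 < t) (htt : t * t = b * c + 1)
    (hy : 2 ≤ y) (hp : b * z ^ 2 - c * y ^ 2 = b - c) (hz : 4 * z ^ 2 < c ^ 2) (hz0 : 0 ≤ z) :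
    4 * (c * y - t * z) ^ 2 < c ^ 2 := by
  have hc : 0 < c := by linarith
  have ht1 : 1 ≤ t := by omega
  -- it is enough that `|2 (c y - t z)| < c`
  have key : (c * y - t * z) * (c * y + t * z) = c * (c - b) - z ^ 2 := by
    linear_combination (-c) * hp - z ^ 2 * htt
  have hz2 : 2 * z < c := by
    by_contra hcon
    push Not at hcon
    nlinarith
  have hS : 2 * c ≤ c * y + t * z := by nlinarith [mul_nonneg ht.le hz0]
  have hS2 : z ≤ t * z := by nlinarith
  have hlt : |2 * (c * y - t * z)| < c := by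
    rw [abs_lt]
    constructor
    · by_contra hcon
      push Not at hcon
      -- 2 (c y - t z) ≤ -c
      have h1 : (c * y - t * z) * (c * y + t * z) * 2 ≤ -c * (c * y + t * z) := by nlinarith
      rw [key] at h1
      nlinarith [mul_pos hc (sub_pos.2 hbc)]
    · by_contra hcon
      push Not at hcon
      have h1 : c * (c * y + t * z) ≤ (c * y - t * z) * (c * y + t * z) * 2 := by nlinarith
      rw [key] at h1
      nlinarith [mul_pos hc hb]
  have := sq_lt_sq' (abs_lt.1 hlt).1 (abs_lt.1 hlt).2
  nlinarith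


theorem inv_step (b c t z y : ℤ) (htt : t * t = b * c + 1) (hp : b * z ^ 2 - c * y ^ 2 = b - c) :
    b * (t * z - c * y) ^ 2 - c * (t * y - b * z) ^ 2 = b - c := by
  linear_combination (b * z ^ 2 - c * y ^ 2) * htt + hp

theorem inv_step' (b c t z y : ℤ) (htt : t * t = b * c + 1) (hp : b * z ^ 2 - c * y ^ 2 = b - c) :
    b * (t * z + c * y) ^ 2 - c * (t * y + b * z) ^ 2 = b - c := by
  linear_combination (b * z ^ 2 - c * y ^ 2) * htt + hp

theorem pos_step (b c t z y : ℤ) (hb : 0 < b) (hbc : b < c) (ht : 0 < t) (htt : t * t = b * c + 1)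
    (hy : 0 < y) (hp : b * z ^ 2 - c * y ^ 2 = b - c) : 0 < t * y - b * z := by
  by_contra hcon
  push Not at hcon
  have h1 : (t * y) ^ 2 ≤ (b * z) ^ 2 := by
    have : 0 < t * y := mul_pos ht hy
    nlinarith
  have h2 : (t * y) ^ 2 - (b * z) ^ 2 = y ^ 2 + b * (c - b) := by
    linear_combination y ^ 2 * htt - b * hp
  have h3 : 0 < y ^ 2 := by positivity
  have h4 : 0 < b * (c - b) := mul_pos hb (by linarith)
  linarith

theorem clz (hP : PelStatement) (hN : NseStatement) : ClzStatement := by
  intro a b c r d hE hD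
  obtain ⟨ha, hab, hr, hc⟩ := id hE
  obtain ⟨hd0, hda, hdb, hdc, ⟨X, hX⟩, ⟨Y, hY⟩, ⟨Z, hZ⟩⟩ := id hD
  have hcd : c < d := by
    rcases lt_trichotomy d c with h | h | h
    · exact absurd hD (hN a b c r d hE h)
    · exact absurd h hdc
    · exact h
  have hA : (0 : ℤ) < a := by exact_mod_cast ha
  have hAB : (a : ℤ) < b := by exact_mod_cast hab
  have hB : (0 : ℤ) < b := hA.trans hAB
  have hR : (r : ℤ) * r = a * b + 1 := by exact_mod_cast hr
  have hC : (c : ℤ) = a + b + 2 * r := by exact_mod_cast hc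
  have hR0 : (0 : ℤ) ≤ r := by positivity
  have hr2 : (2 : ℤ) ≤ r := by
    by_contra hcon
    push Not at hcon
    have h1 : (r : ℤ) ≤ 1 := by omega
    have h2 : (r : ℤ) * r ≤ 1 * 1 := mul_le_mul h1 h1 hR0 zero_le_one
    have := mul_pos hA hB
    linarith
  have hAC : (a : ℤ) < c := by linarith
  have hBC : (b : ℤ) < c := by linarith
  have hCpos : (0 : ℤ) < c := by linarith
  have hS : ((a : ℤ) + r) * ((a : ℤ) + r) = a * c + 1 := by rw [hC]; linear_combination hR
  have hT : ((b : ℤ) + r) * ((b : ℤ) + r) = b * c + 1 := by rw [hC]; linear_combination hR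
  obtain ⟨s, hs⟩ : ∃ s : ℤ, s = (a : ℤ) + r := ⟨_, rfl⟩
  obtain ⟨t, ht⟩ : ∃ t : ℤ, t = (b : ℤ) + r := ⟨_, rfl⟩
  have hst : t = c - s := by rw [hs, ht, hC]; ring
  have hspos : 0 < s := by rw [hs]; linarith
  have htpos : 0 < t := by rw [ht]; linarith
  have h2s : 2 * s < c := by rw [hs, hC]; linarith
  have h4s : 4 * s ^ 2 < (c : ℤ) ^ 2 := by
    have := pow_lt_pow_left₀ h2s (by linarith) two_ne_zero
    linear_combination this
  rw [← hs] at hS
  rw [← ht] at hT
  have hX' : (a : ℤ) * d + 1 = X * X := by exact_mod_cast hX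
  have hY' : (b : ℤ) * d + 1 = Y * Y := by exact_mod_cast hY
  have hZ' : (c : ℤ) * d + 1 = Z * Z := by exact_mod_cast hZ
  have hDpos : (0 : ℤ) < d := by exact_mod_cast hd0
  have hXpos : (0 : ℤ) < X := by
    have h0 : (0 : ℤ) ≤ X := by positivity
    rcases h0.eq_or_lt with h | h
    · rw [← h] at hX'
      have := mul_pos hA hDpos
      linarith
    · exact h
  have hYpos : (0 : ℤ) < Y := by
    have h0 : (0 : ℤ) ≤ Y := by positivity
    rcases h0.eq_or_lt with h | h
    · rw [← h] at hY'
      have := mul_pos hB hDpos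
      linarith
    · exact h
  have hZpos : (1 : ℤ) < Z := by
    have h0 : (0 : ℤ) ≤ Z := by positivity
    by_contra hcon
    push Not at hcon
    have h1 : (Z : ℤ) * Z ≤ 1 * 1 := mul_le_mul hcon hcon h0 zero_le_one
    have := mul_pos hCpos hDpos
    linarith
  obtain ⟨k, z0, x0, hx0, q0, l0, e0⟩ := hP a c s Z X hA hAC hspos hS (by linarith) hXpos
    (by linear_combination a * (-hZ') + c * hX')
  obtain ⟨j, z1, y1, hy1, q1, l1, e1⟩ := hP b c t Z Y hB hBC htpos hT (by linarith) hYpos
    (by linear_combination b * (-hZ') + c * hY')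
  have m0 := sqg_mod a c s z0 x0 hS k
  have m1 := sqg_mod b c t z1 y1 hT j
  rw [e0] at m0
  rw [e1] at m1
  dsimp only at m0 m1
  have hZZ : (c : ℤ) * d = Z * Z - 1 := by linarith
  have hZf : (Z : ℤ) * Z = c * d + 1 := by linarith
  rcases Nat.even_or_odd k with hk | hk <;> rcases Nat.even_or_odd j with hj | hj
  · -- (i)
    obtain ⟨u, hu⟩ := m0.1 hk
    obtain ⟨v, hv⟩ := m1.1 hj
    have hz : z0 = z1 := eq_of_dvd c z0 z1 hCpos ⟨v - u, by linear_combination hv - hu⟩ l0 l1
    subst hz
    obtain ⟨w1, w2, w3⟩ := lemD hN a b c r hE z0 x0 y1 q0 q1 l0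
      ⟨d - u * (Z + z0), by linear_combination (-hZZ) - (Z + z0) * hu⟩
    have hx1 := one_of_sq x0 hx0 w2
    have hy2 := one_of_sq y1 hy1 w3
    subst hx1 hy2
    refine ⟨X, Y, Z, k, j, z0, z0, hZf, pm_of_sq z0 w1, Or.inl ⟨hk, hj, rfl⟩, hXpos, hYpos,
      hZpos, ?_, ?_⟩
    · rw [← hs]; exact e0
    · rw [← ht]; exact e1
  · -- (iii)
    obtain ⟨u, hu⟩ := m0.1 hk
    obtain ⟨v, hv⟩ := m1.2 (by rwa [Nat.not_even_iff_odd])
    have h4 : (c : ℤ) ∣ z0 * z0 - 1 :=
      ⟨d - u * (Z + z0), by linear_combination (-hZZ) - (Z + z0) * hu⟩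
    have hy12 : 2 ≤ y1 ∨ y1 = 1 := by omega
    rcases hy12 with hy2 | hy2
    · rcases le_or_gt 0 z1 with hz1 | hz1
      · have hsm := small b c t z1 y1 hB hBC htpos hT hy2 q1 l1 hz1
        have hz : z0 = t * z1 - c * y1 := eq_of_dvd c _ _ hCpos
          ⟨v - u + y1, by linear_combination hv - hu⟩ l0 (by
            have : (t * z1 - c * y1) ^ 2 = (c * y1 - t * z1) ^ 2 := by ring
            rw [this]; exact hsm)
        have hq := inv_step b c t z1 y1 hT q1
        rw [← hz] at hq
        obtain ⟨w1, w2, w3⟩ := lemD hN a b c r hE z0 x0 (t * y1 - b * z1) q0 hq l0 h4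
        have hx1 := one_of_sq x0 hx0 w2
        have hy3 := one_of_sq _ (pos_step b c t z1 y1 hB hBC htpos hT hy1 q1) w3
        subst hx1
        refine ⟨X, Y, Z, k, j + 1, z0, z0, hZf, pm_of_sq z0 w1,
          Or.inl ⟨hk, hj.add_one, rfl⟩, hXpos, hYpos, hZpos, ?_, ?_⟩
        · rw [← hs]; exact e0
        · rw [← ht, sqg_succ']
          have i1 : t * z0 + c * 1 = z1 := by
            linear_combination t * hz - c * hy3 + z1 * hT
          have i2 : t * 1 + b * z0 = y1 := by
            linear_combination (-t) * hy3 + b * hz + y1 * hT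
          rw [i1, i2]
          exact e1
      · have hsm := small b c t (-z1) y1 hB hBC htpos hT hy2 (by linear_combination q1)
          (by linear_combination l1) (by linarith)
        have hz : z0 = t * z1 + c * y1 := eq_of_dvd c _ _ hCpos
          ⟨v - u - y1, by linear_combination hv - hu⟩ l0 (by
            have : (t * z1 + c * y1) ^ 2 = (c * y1 - t * (-z1)) ^ 2 := by ring
            rw [this]; exact hsm)
        have hq := inv_step' b c t z1 y1 hT q1
        rw [← hz] at hq
        obtain ⟨w1, w2, w3⟩ := lemD hN a b c r hE z0 x0 (t * y1 + b * z1) q0 hq l0 h4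
        have hx1 := one_of_sq x0 hx0 w2
        have hpos := pos_step b c t (-z1) y1 hB hBC htpos hT hy1 (by linear_combination q1)
        have hy3 := one_of_sq _ (by linarith : 0 < t * y1 + b * z1) w3
        subst hx1
        obtain ⟨n, rfl⟩ : ∃ n, j = n + 1 := by
          rcases j with _ | n
          · exact absurd hj (by decide)
          · exact ⟨n, rfl⟩
        have hn : Even n := by
          rw [← Nat.not_even_iff_odd, Nat.even_add_one, not_not] at hj
          exact hj
        refine ⟨X, Y, Z, k, n, z0, z0, hZf, pm_of_sq z0 w1,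
          Or.inl ⟨hk, hn, rfl⟩, hXpos, hYpos, hZpos, ?_, ?_⟩
        · rw [← hs]; exact e0
        · rw [← ht]
          rw [sqg_succ', ← hz, hy3] at e1
          exact e1
    · exfalso
      subst hy2
      have hz1 : z1 * z1 = 1 := by
        have : (b : ℤ) * (z1 * z1 - 1) = 0 := by linear_combination q1
        rcases mul_eq_zero.1 this with h | h
        · omega
        · linarith
      have hz : z0 = -(s * z1) := eq_of_dvd c _ _ hCpos
        ⟨v - u + z1, by rw [hst] at hv; linear_combination hv - hu⟩ l0 (by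
          have : (-(s * z1)) ^ 2 = s ^ 2 := by linear_combination s ^ 2 * hz1
          rw [this]; exact h4s)
      have hx : (c : ℤ) * (a * a + 1 - x0 * x0) = 0 := by
        rw [hz] at q0
        linear_combination q0 - a * s ^ 2 * hz1 - a * hS
      rcases mul_eq_zero.1 hx with h | h
      · omega
      · exact not_sq a x0 hA (by linarith)
  · -- (iv)
    obtain ⟨u, hu⟩ := m0.2 (by rwa [Nat.not_even_iff_odd])
    obtain ⟨v, hv⟩ := m1.1 hj
    have h4 : (c : ℤ) ∣ z1 * z1 - 1 :=
      ⟨d - v * (Z + z1), by linear_combination (-hZZ) - (Z + z1) * hv⟩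
    have hx12 : 2 ≤ x0 ∨ x0 = 1 := by omega
    rcases hx12 with hx2 | hx2
    · rcases le_or_gt 0 z0 with hz1 | hz1
      · have hsm := small a c s z0 x0 hA hAC hspos hS hx2 q0 l0 hz1
        have hz : z1 = s * z0 - c * x0 := eq_of_dvd c _ _ hCpos
          ⟨u - v + x0, by linear_combination hu - hv⟩ l1 (by
            have : (s * z0 - c * x0) ^ 2 = (c * x0 - s * z0) ^ 2 := by ring
            rw [this]; exact hsm)
        have hq := inv_step a c s z0 x0 hS q0
        rw [← hz] at hq
        obtain ⟨w1, w2, w3⟩ := lemD hN a b c r hE z1 (s * x0 - a * z0) y1 hq q1 l1 h4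
        have hy3 := one_of_sq y1 hy1 w3
        have hx3 := one_of_sq _ (pos_step a c s z0 x0 hA hAC hspos hS hx0 q0) w2
        subst hy3
        refine ⟨X, Y, Z, k + 1, j, z1, z1, hZf, pm_of_sq z1 w1,
          Or.inl ⟨hk.add_one, hj, rfl⟩, hXpos, hYpos, hZpos, ?_, ?_⟩
        · rw [← hs, sqg_succ']
          have i1 : s * z1 + c * 1 = z0 := by
            linear_combination s * hz - c * hx3 + z0 * hS
          have i2 : s * 1 + a * z1 = x0 := by
            linear_combination (-s) * hx3 + a * hz + x0 * hS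
          rw [i1, i2]
          exact e0
        · rw [← ht]; exact e1
      · have hsm := small a c s (-z0) x0 hA hAC hspos hS hx2 (by linear_combination q0)
          (by linear_combination l0) (by linarith)
        have hz : z1 = s * z0 + c * x0 := eq_of_dvd c _ _ hCpos
          ⟨u - v - x0, by linear_combination hu - hv⟩ l1 (by
            have : (s * z0 + c * x0) ^ 2 = (c * x0 - s * (-z0)) ^ 2 := by ring
            rw [this]; exact hsm)
        have hq := inv_step' a c s z0 x0 hS q0
        rw [← hz] at hq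
        obtain ⟨w1, w2, w3⟩ := lemD hN a b c r hE z1 (s * x0 + a * z0) y1 hq q1 l1 h4
        have hy3 := one_of_sq y1 hy1 w3
        have hpos := pos_step a c s (-z0) x0 hA hAC hspos hS hx0 (by linear_combination q0)
        have hx3 := one_of_sq _ (by linarith : 0 < s * x0 + a * z0) w2
        subst hy3
        obtain ⟨n, rfl⟩ : ∃ n, k = n + 1 := by
          rcases k with _ | n
          · exact absurd hk (by decide)
          · exact ⟨n, rfl⟩
        have hn : Even n := by
          rw [← Nat.not_even_iff_odd, Nat.even_add_one, not_not] at hk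
          exact hk
        refine ⟨X, Y, Z, n, j, z1, z1, hZf, pm_of_sq z1 w1,
          Or.inl ⟨hn, hj, rfl⟩, hXpos, hYpos, hZpos, ?_, ?_⟩
        · rw [← hs]
          rw [sqg_succ', ← hz, hx3] at e0
          exact e0
        · rw [← ht]; exact e1
    · subst hx2
      have hz0 : z0 * z0 = 1 := by
        have : (a : ℤ) * (z0 * z0 - 1) = 0 := by linear_combination q0
        rcases mul_eq_zero.1 this with h | h
        · omega
        · linarith
      have hz : z1 = s * z0 := eq_of_dvd c _ _ hCpos
        ⟨u - v, by linear_combination hu - hv⟩ l1 (by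
          have : (s * z0) ^ 2 = s ^ 2 := by linear_combination s ^ 2 * hz0
          rw [this]; exact h4s)
      have hyr : (c : ℤ) * (r * r - y1 * y1) = 0 := by
        rw [hz] at q1
        linear_combination q1 - b * s ^ 2 * hz0 - b * hS + c * hR
      have hyr' : y1 = r := by
        rcases mul_eq_zero.1 hyr with h | h
        · omega
        · have h1 : ((r : ℤ) - y1) * (r + y1) = 0 := by linear_combination h
          rcases mul_eq_zero.1 h1 with h2 | h2
          · linarith
          · linarith
      have hsr : c * (r : ℤ) - s * t = 1 := by rw [hs, ht, hC]; linear_combination hR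
      have hrr : t * (r : ℤ) - b * s = 1 := by rw [hs, ht]; linear_combination hR
      rcases pm_of_sq z0 hz0 with h | h
      · subst h
        refine ⟨X, Y, Z, k, j + 1, 1, -1, hZf, Or.inl rfl,
          Or.inr ⟨hk, hj.add_one, rfl⟩, hXpos, hYpos, hZpos, ?_, ?_⟩
        · rw [← hs]; exact e0
        · rw [← ht, sqg_succ']
          have i1 : t * (-1) + c * 1 = z1 := by rw [hz, hst]; ring
          have i2 : t * 1 + b * (-1) = y1 := by rw [hyr', ht]; ring
          rw [i1, i2]
          exact e1
      · subst h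
        rcases j with _ | n
        · exfalso
          have : z1 = Z := by
            have := congrArg Prod.fst e1
            exact this
          rw [hz] at this
          linarith
        · have hn : Odd n := by
            rw [Nat.even_add_one, Nat.not_even_iff_odd] at hj
            exact hj
          refine ⟨X, Y, Z, k, n, -1, 1, hZf, Or.inr rfl,
            Or.inr ⟨hk, hn, by norm_num⟩, hXpos, hYpos, hZpos, ?_, ?_⟩
          · rw [← hs]; exact e0
          · rw [← ht]
            rw [sqg_succ'] at e1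
            have i1 : t * z1 + c * y1 = 1 := by rw [hz, hyr']; linear_combination hsr
            have i2 : t * y1 + b * z1 = 1 := by rw [hz, hyr']; linear_combination hrr
            rw [i1, i2] at e1
            exact e1
  · -- (ii)
    obtain ⟨u, hu⟩ := m0.2 (by rwa [Nat.not_even_iff_odd])
    obtain ⟨v, hv⟩ := m1.2 (by rwa [Nat.not_even_iff_odd])
    have hz : z0 = -z1 := eq_of_dvd c z0 (-z1) hCpos
      ⟨s * (v - u + z1) - a * (z0 + z1), by
        rw [hst] at hv
        linear_combination s * (hv - hu) - (z0 + z1) * hS⟩ l0 (by linear_combination l1)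
    obtain ⟨w1, w2, w3⟩ := lemD hN a b c r hE z0 x0 y1 q0
      (by rw [hz]; linear_combination q1) l0
      ⟨d - u * (Z + s * z0) - a * z0 ^ 2, by
        linear_combination (-hZZ) - (Z + s * z0) * hu + z0 ^ 2 * (-hS)⟩
    have hx1 := one_of_sq x0 hx0 w2
    have hy2 := one_of_sq y1 hy1 w3
    subst hx1 hy2
    refine ⟨X, Y, Z, k, j, z0, z1, hZf, pm_of_sq z0 w1, Or.inr ⟨hk, hj, by rw [hz]; ring⟩,
      hXpos, hYpos, hZpos, ?_, ?_⟩
    · rw [← hs]; exact e0
    · rw [← ht]; exact e1

end Pool.Agent.DIO.H65
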