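import Pool.Agent.Helper40_Dio.AStmt

/-! # DIO, module LAM (the linear form is small).  helper65 -/

set_option autoImplicit false

namespace Pool.Agent.DIO.H65

open Real

theorem sqg_real (a c s z x : ℤ) (sa sc : ℝ) (ha : sa * sa = a) (hc : sc * sc = c) (m : ℕ) :
    ((sqg a c s z x m).1 : ℝ) * sa + (sqg a c s z x m).2 * sc =
        (x * sc + z * sa) * (s + sa * sc) ^ m ∧
      ((sqg a c s z x m).2 : ℝ) * sc - (sqg a c s z x m).1 * sa =
        (x * sc - z * sa) * (s - sa * sc) ^ m := by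
  induction m with
  | zero =>
    constructor
    · simp only [sqg, pow_zero]; ring
    · simp only [sqg, pow_zero]; ring
  | succ m ih =>
    obtain ⟨i1, i2⟩ := ih
    have e1 : (sqg a c s z x (m + 1)).1 = s * (sqg a c s z x m).1 + c * (sqg a c s z x m).2 := rfl
    have e2 : (sqg a c s z x (m + 1)).2 = s * (sqg a c s z x m).2 + a * (sqg a c s z x m).1 := rfl
    rw [e1, e2]
    push_cast
    rw [← ha, ← hc, pow_succ, pow_succ]
    constructor
    · linear_combination (s + sa * sc) * i1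
    · linear_combination (s - sa * sc) * i2

theorem abs_log_le (X : ℝ) (h : |X - 1| ≤ 1 / 2) : |log X| ≤ 2 * |X - 1| := by
  rw [abs_le] at h
  have hX : 0 < X := by linarith [h.1]
  have h1 : log X ≤ X - 1 := log_le_sub_one_of_pos hX
  have h2 : log X⁻¹ ≤ X⁻¹ - 1 := log_le_sub_one_of_pos (inv_pos.2 hX)
  rw [log_inv] at h2
  rcases le_total 1 X with h3 | h3
  · have h4 : 0 ≤ log X := log_nonneg h3
    rw [abs_of_nonneg h4, abs_of_nonneg (by linarith)]
    linarith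
  · have h4 : log X ≤ 0 := log_nonpos hX.le h3
    rw [abs_of_nonpos h4, abs_of_nonpos (by linarith)]
    have h5 : X⁻¹ ≤ 2 := by
      rw [inv_le_comm₀ hX (by norm_num)]
      linarith [h.1]
    have h6 : X⁻¹ - 1 = X⁻¹ * (1 - X) := by
      field_simp
    have h7 : X⁻¹ * (1 - X) ≤ 2 * (1 - X) := mul_le_mul_of_nonneg_right h5 (by linarith)
    linarith

theorem le_of_mul_self (k x A : ℝ) (hx : 0 < x) (h : x * x = A) (h2 : k * k ≤ A) : k ≤ x := by
  by_contra hcon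
  push Not at hcon
  nlinarith

theorem le_of_mul_self' (x y A B : ℝ) (hy : 0 < y) (h1 : x * x = A) (h2 : y * y = B)
    (h : A ≤ B) : x ≤ y := le_of_mul_self x y B hy h2 (by rw [h1]; exact h)

theorem inv_pos_le (x y : ℝ) (hx : 1 ≤ x) (h : x * y = 1) : 0 < y ∧ y ≤ 1 := by
  have hx0 : 0 < x := by linarith
  have hy : y = x⁻¹ := eq_inv_of_mul_eq_one_right h
  rw [hy]
  exact ⟨inv_pos.2 hx0, inv_le_one_of_one_le₀ hx⟩

theorem small_term (z sa u S Q : ℝ) (hz : 0 < z) (hsa : 1 ≤ sa) (hu : 0 < u)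
    (hSu : S * u ≤ Q) (hS : S = 2 * z * sa + u) (hQ : 0 < Q) : 2 * z * u ≤ Q * sa := by
  have h1 : 2 * z * sa * u ≤ Q := by
    have : 0 < u * u := mul_pos hu hu
    rw [hS] at hSu
    linarith
  have h2 : 2 * z * u * 1 ≤ 2 * z * u * sa := mul_le_mul_of_nonneg_left hsa (by positivity)
  have h3 : Q * 1 ≤ Q * sa := mul_le_mul_of_nonneg_left hsa hQ.le
  linarith

/-- bounds for one Pell equation -/
theorem bounds (a c : ℝ) (z0 x0 sa sc : ℝ) (ha : 0 < a) (hac : a + 1 ≤ c) (hsa : 0 < sa)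
    (hsc : 0 < sc) (haa : sa * sa = a) (hcc : sc * sc = c) (h2 : 2 ≤ c) (hx0 : 1 ≤ x0)
    (hp : a * z0 ^ 2 - c * x0 ^ 2 = a - c) (hz : 4 * z0 ^ 2 < c ^ 2) :
    0 < x0 * sc + z0 * sa ∧ 0 < x0 * sc - z0 * sa ∧ x0 * sc + z0 * sa ≤ 2 * c * sc ∧
      x0 * sc - z0 * sa ≤ 2 * c * sc ∧ 1 ≤ 2 * c * sc * (x0 * sc + z0 * sa) := by
  have hc : 0 < c := by linarith
  have hprod : (x0 * sc + z0 * sa) * (x0 * sc - z0 * sa) = c - a := by
    linear_combination x0 ^ 2 * hcc - z0 ^ 2 * haa - hp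
  have hsas : sa ≤ sc := le_of_mul_self' sa sc a c hsc haa hcc (by linarith)
  have hxsc : 0 < x0 * sc := mul_pos (by linarith) hsc
  have hP : 0 < x0 * sc + z0 * sa := by
    by_contra hcon
    push Not at hcon
    have h1 : 0 ≤ x0 * sc - z0 * sa := by linarith
    have : (x0 * sc + z0 * sa) * (x0 * sc - z0 * sa) ≤ 0 := mul_nonpos_of_nonpos_of_nonneg hcon h1
    linarith
  have hP' : 0 < x0 * sc - z0 * sa := by
    by_contra hcon
    push Not at hcon
    have : (x0 * sc + z0 * sa) * (x0 * sc - z0 * sa) ≤ 0 := mul_nonpos_of_nonneg_of_nonpos hP.le hcon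
    linarith
  have hx0c : x0 ≤ c := by
    by_contra hcon
    push Not at hcon
    have h1 : c * x0 ^ 2 = a * z0 ^ 2 + (c - a) := by linarith
    have h2' : a * (4 * z0 ^ 2) ≤ c * c ^ 2 := by
      have := mul_le_mul (by linarith : a ≤ c) hz.le (by positivity) hc.le
      exact this
    have h3 : c ^ 2 < x0 ^ 2 := pow_lt_pow_left₀ hcon hc.le two_ne_zero
    have h4 : c * c ^ 2 < c * x0 ^ 2 := mul_lt_mul_of_pos_left h3 hc
    have h5 : (2 : ℝ) ^ 2 ≤ c ^ 2 := pow_le_pow_left₀ (by norm_num) h2 2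
    have h6 : c * 2 ^ 2 ≤ c * c ^ 2 := mul_le_mul_of_nonneg_left h5 hc.le
    linarith
  have hzc : |z0| ≤ c := by
    apply abs_le_of_sq_le_sq _ hc.le
    have := sq_nonneg z0
    linarith
  have hzz := abs_le.1 hzc
  have hup : x0 * sc + z0 * sa ≤ 2 * c * sc := by
    have h1 : x0 * sc ≤ c * sc := mul_le_mul_of_nonneg_right hx0c hsc.le
    have h2 : z0 * sa ≤ c * sa := mul_le_mul_of_nonneg_right hzz.2 hsa.le
    have h3 : c * sa ≤ c * sc := mul_le_mul_of_nonneg_left hsas hc.le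
    linarith
  have hup' : x0 * sc - z0 * sa ≤ 2 * c * sc := by
    have h1 : x0 * sc ≤ c * sc := mul_le_mul_of_nonneg_right hx0c hsc.le
    have h2 : (-z0) * sa ≤ c * sa := mul_le_mul_of_nonneg_right (by linarith [hzz.1]) hsa.le
    have h3 : c * sa ≤ c * sc := mul_le_mul_of_nonneg_left hsas hc.le
    linarith
  refine ⟨hP, hP', hup, hup', ?_⟩
  have h1 : (x0 * sc - z0 * sa) * (x0 * sc + z0 * sa) ≤ 2 * c * sc * (x0 * sc + z0 * sa) :=
    mul_le_mul_of_nonneg_right hup' hP.le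
  linarith

/-- the core inequality -/
theorem core (A B C sa sb sc z P P' R R' al al' be be' : ℝ) (m n : ℕ)
    (hA : 1 ≤ A) (hAB : A ≤ B) (hBC : B ≤ C) (hC : 4 ≤ C)
    (hsa : 0 < sa) (hsb : 0 < sb) (hsc : 0 < sc)
    (haa : sa * sa = A) (hbb : sb * sb = B) (hcc : sc * sc = C) (hz : 2 ≤ z)
    (hP : 0 < P) (hP' : 0 < P') (hR : 0 < R) (hR' : 0 < R')
    (hPP : P * P' = C - A) (hRR : R * R' = C - B)
    (hPu : P' ≤ 2 * C * sc) (hRu : R' ≤ 2 * C * sc)
    (hPl : 1 ≤ 2 * C * sc * P) (hRl : 1 ≤ 2 * C * sc * R)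
    (hal : 2 * sc ≤ al) (hbe : 2 * sc ≤ be) (hala : al * al' = 1) (hbeb : be * be' = 1)
    (E1 : 2 * z * sa = P * al ^ m - P' * al' ^ m) (E2 : 2 * z * sb = R * be ^ n - R' * be' ^ n)
    (hmn : 100 ≤ m + n) :
    |(m : ℝ) * log al - (n : ℝ) * log be + log (sb * P / (sa * R))| ≤ exp (-((m : ℝ) + n)) := by
  have hsc2 : 2 ≤ sc := le_of_mul_self 2 sc C hsc hcc (by linarith)
  have hsa1 : 1 ≤ sa := le_of_mul_self 1 sa A hsa haa (by linarith)
  have hsb1 : 1 ≤ sb := le_of_mul_self 1 sb B hsb hbb (by linarith)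
  have hsac : sa ≤ sc := le_of_mul_self' sa sc A C hsc haa hcc (by linarith)
  have hsbc : sb ≤ sc := le_of_mul_self' sb sc B C hsc hbb hcc (by linarith)
  have hal0 : 0 < al := by linarith
  have hbe0 : 0 < be := by linarith
  obtain ⟨hal'0, hal'1⟩ := inv_pos_le al al' (by linarith) hala
  obtain ⟨hbe'0, hbe'1⟩ := inv_pos_le be be' (by linarith) hbeb
  obtain ⟨u, hu⟩ : ∃ u, u = P' * al' ^ m := ⟨_, rfl⟩
  obtain ⟨v, hv⟩ : ∃ v, v = R' * be' ^ n := ⟨_, rfl⟩
  obtain ⟨S, hS⟩ : ∃ S, S = P * al ^ m := ⟨_, rfl⟩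
  obtain ⟨T, hT⟩ : ∃ T, T = R * be ^ n := ⟨_, rfl⟩
  have hu0 : 0 < u := by rw [hu]; positivity
  have hv0 : 0 < v := by rw [hv]; positivity
  have hS0 : 0 < S := by rw [hS]; positivity
  have hT0 : 0 < T := by rw [hT]; positivity
  have hSu : S * u = C - A := by
    rw [hS, hu, ← hPP]
    have : al ^ m * al' ^ m = 1 := by rw [← mul_pow, hala, one_pow]
    linear_combination P * P' * this
  have hTv : T * v = C - B := by
    rw [hT, hv, ← hRR]
    have : be ^ n * be' ^ n = 1 := by rw [← mul_pow, hbeb, one_pow]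
    linear_combination R * R' * this
  have hSe : S = 2 * z * sa + u := by rw [hS, hu]; linarith
  have hTe : T = 2 * z * sb + v := by rw [hT, hv]; linarith
  have huc : u ≤ 2 * C * sc := by
    have h1 : al' ^ m ≤ 1 := pow_le_one₀ hal'0.le hal'1
    have h2 : P' * al' ^ m ≤ P' * 1 := mul_le_mul_of_nonneg_left h1 hP'.le
    rw [hu]; linarith
  have hvc : v ≤ 2 * C * sc := by
    have h1 : be' ^ n ≤ 1 := pow_le_one₀ hbe'0.le hbe'1
    have h2 : R' * be' ^ n ≤ R' * 1 := mul_le_mul_of_nonneg_left h1 hR'.le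
    rw [hv]; linarith
  -- the bound `S T ≤ 4 C³ z²`
  have hC0 : 0 < C := by linarith
  have hST : S * T ≤ 4 * C ^ 3 * z ^ 2 := by
    have hzc : z + C ≤ z * C := by
      have := mul_nonneg (by linarith : 0 ≤ z - 2) (by linarith : 0 ≤ C - 2)
      linarith
    have h1 : S ≤ 2 * (z * C) * sc := by
      have h2 : 2 * z * sa ≤ 2 * z * sc := mul_le_mul_of_nonneg_left hsac (by linarith)
      have h3 : 2 * (z + C) * sc ≤ 2 * (z * C) * sc :=
        mul_le_mul_of_nonneg_right (by linarith) hsc.le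
      linarith
    have h2 : T ≤ 2 * (z * C) * sc := by
      have h2 : 2 * z * sb ≤ 2 * z * sc := mul_le_mul_of_nonneg_left hsbc (by linarith)
      have h3 : 2 * (z + C) * sc ≤ 2 * (z * C) * sc :=
        mul_le_mul_of_nonneg_right (by linarith) hsc.le
      linarith
    have h3 : S * T ≤ (2 * (z * C) * sc) * (2 * (z * C) * sc) :=
      mul_le_mul h1 h2 hT0.le (hS0.le.trans h1)
    have h4 : (2 * (z * C) * sc) * (2 * (z * C) * sc) = 4 * C ^ 3 * z ^ 2 := by
      linear_combination 4 * z ^ 2 * C ^ 2 * hcc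
    linarith
  have hPR : 1 ≤ 4 * C ^ 3 * (P * R) := by
    have h1 : (1 : ℝ) * 1 ≤ (2 * C * sc * P) * (2 * C * sc * R) :=
      mul_le_mul hPl hRl zero_le_one (zero_le_one.trans hPl)
    have h2 : (2 * C * sc * P) * (2 * C * sc * R) = 4 * C ^ 3 * (P * R) := by
      linear_combination 4 * C ^ 2 * P * R * hcc
    linarith
  have hab : al ^ m * be ^ n ≤ 16 * C ^ 6 * z ^ 2 := by
    have h0 : 0 ≤ al ^ m * be ^ n := by positivity
    have h1 : al ^ m * be ^ n * 1 ≤ al ^ m * be ^ n * (4 * C ^ 3 * (P * R)) :=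
      mul_le_mul_of_nonneg_left hPR h0
    have h2 : al ^ m * be ^ n * (4 * C ^ 3 * (P * R)) = 4 * C ^ 3 * (S * T) := by
      rw [hS, hT]; ring
    have h3 : 4 * C ^ 3 * (S * T) ≤ 4 * C ^ 3 * (4 * C ^ 3 * z ^ 2) :=
      mul_le_mul_of_nonneg_left hST (by positivity)
    have h4 : 4 * C ^ 3 * (4 * C ^ 3 * z ^ 2) = 16 * C ^ 6 * z ^ 2 := by ring
    linarith
  have hlow : (2 * sc) ^ (m + n) ≤ al ^ m * be ^ n := by
    rw [pow_add]
    exact mul_le_mul (pow_le_pow_left₀ (by linarith) hal m) (pow_le_pow_left₀ (by linarith) hbe n)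
      (by positivity) (by positivity)
  have hnum : 8 * C ^ 7 * 3 ^ (m + n) ≤ (2 * sc) ^ (m + n) := by
    obtain ⟨k, hk⟩ := Nat.exists_eq_add_of_le hmn
    rw [hk, pow_add, pow_add]
    have h1 : (3 : ℝ) ^ k ≤ (2 * sc) ^ k := pow_le_pow_left₀ (by norm_num) (by linarith) k
    have h2 : 8 * C ^ 7 * 3 ^ 100 ≤ (2 * sc) ^ 100 := by
      have h3 : (2 * sc) ^ 100 = 2 ^ 100 * C ^ 7 * C ^ 43 := by
        have : (2 * sc) ^ 100 = 2 ^ 100 * (sc * sc) ^ 50 := by ring
        rw [this, hcc]; ring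
      have h4 : (4 : ℝ) ^ 43 ≤ C ^ 43 := pow_le_pow_left₀ (by norm_num) hC 43
      rw [h3]
      have h5 : 2 ^ 100 * C ^ 7 * 4 ^ 43 ≤ 2 ^ 100 * C ^ 7 * C ^ 43 :=
        mul_le_mul_of_nonneg_left h4 (by positivity)
      have h6 : (8 : ℝ) * 3 ^ 100 ≤ 2 ^ 100 * 4 ^ 43 := by norm_num
      have h7 : C ^ 7 * (8 * 3 ^ 100) ≤ C ^ 7 * (2 ^ 100 * 4 ^ 43) :=
        mul_le_mul_of_nonneg_left h6 (by positivity)
      linarith
    have h3 : 8 * C ^ 7 * 3 ^ 100 * 3 ^ k ≤ (2 * sc) ^ 100 * (2 * sc) ^ k :=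
      mul_le_mul h2 h1 (by positivity) (by positivity)
    linarith
  -- the quotient
  obtain ⟨X, hX⟩ : ∃ X, X = sb * S / (sa * T) := ⟨_, rfl⟩
  have hX0 : 0 < X := by rw [hX]; positivity
  have hX1 : |X - 1| ≤ C / (4 * z ^ 2) := by
    have hq : 0 < sa * T := by positivity
    have hXe : X - 1 = (sb * u - sa * v) / (sa * T) := by
      rw [hX, eq_div_iff hq.ne', sub_mul, div_mul_cancel₀ _ hq.ne', hSe, hTe]
      ring
    rw [hXe, abs_div, abs_of_pos hq, div_le_iff₀ hq]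
    have hz0 : 0 < z := by linarith
    have h1 : 2 * z * sb ≤ T := by rw [hTe]; linarith
    have h2 : C * sa * sb / (2 * z) ≤ C / (4 * z ^ 2) * (sa * T) := by
      have h3 : C / (4 * z ^ 2) * (sa * (2 * z * sb)) ≤ C / (4 * z ^ 2) * (sa * T) := by
        apply mul_le_mul_of_nonneg_left _ (by positivity)
        exact mul_le_mul_of_nonneg_left h1 hsa.le
      have h4 : C / (4 * z ^ 2) * (sa * (2 * z * sb)) = C * sa * sb / (2 * z) := by
        field_simp; ring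
      linarith
    have h3 : sb * u ≤ C * sa * sb / (2 * z) := by
      rw [le_div_iff₀ (by positivity)]
      have h6 : 2 * z * u ≤ C * sa :=
        small_term z sa u S C hz0 hsa1 hu0 (by rw [hSu]; linarith) hSe hC0
      have := mul_le_mul_of_nonneg_right h6 hsb.le
      linarith
    have h4 : sa * v ≤ C * sa * sb / (2 * z) := by
      rw [le_div_iff₀ (by positivity)]
      have h6 : 2 * z * v ≤ C * sb :=
        small_term z sb v T C hz0 hsb1 hv0 (by rw [hTv]; linarith) hTe hC0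
      have := mul_le_mul_of_nonneg_right h6 hsa.le
      linarith
    have h5 : 0 < sb * u := by positivity
    have h6 : 0 < sa * v := by positivity
    rw [abs_le]
    constructor <;> linarith
  have hX2 : C / (4 * z ^ 2) ≤ 4 * C ^ 7 / (al ^ m * be ^ n) := by
    rw [div_le_div_iff₀ (by positivity) (by positivity)]
    have := mul_le_mul_of_nonneg_left hab hC0.le
    linarith
  have hX3 : 4 * C ^ 7 / (al ^ m * be ^ n) ≤ 1 / (2 * 3 ^ (m + n)) := by
    rw [div_le_div_iff₀ (by positivity) (by positivity)]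
    linarith
  have hX4 : |X - 1| ≤ 1 / (2 * 3 ^ (m + n)) := by linarith
  have h3pow : (1 : ℝ) ≤ 3 ^ (m + n) := one_le_pow₀ (by norm_num)
  have hX5 : |X - 1| ≤ 1 / 2 := by
    refine hX4.trans ?_
    rw [div_le_div_iff₀ (by positivity) (by norm_num)]
    linarith
  have hlogX : (m : ℝ) * log al - (n : ℝ) * log be + log (sb * P / (sa * R)) = log X := by
    rw [hX, hS, hT]
    have e : sb * (P * al ^ m) / (sa * (R * be ^ n)) = al ^ m / be ^ n * (sb * P / (sa * R)) := by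
      field_simp
    have q0 : 0 < al ^ m / be ^ n := by positivity
    have q1 : 0 < sb * P / (sa * R) := by positivity
    have q2 : log (al ^ m / be ^ n) = (m : ℝ) * log al - (n : ℝ) * log be := by
      rw [log_div (by positivity) (by positivity), log_pow, log_pow]
    rw [e, log_mul q0.ne' q1.ne', q2]
  rw [hlogX]
  refine (abs_log_le X hX5).trans ?_
  have h1 : 2 * |X - 1| ≤ 1 / 3 ^ (m + n) := by
    have : (1 : ℝ) / (2 * 3 ^ (m + n)) = (1 / 3 ^ (m + n)) / 2 := by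
      field_simp
    rw [this] at hX4
    linarith
  refine h1.trans ?_
  have h2 : exp (-((m : ℝ) + n)) = 1 / exp 1 ^ (m + n) := by
    rw [exp_neg, one_div, ← exp_nat_mul]
    push_cast
    rw [mul_one]
  rw [h2]
  apply one_div_le_one_div_of_le (by positivity)
  exact pow_le_pow_left₀ (exp_pos 1).le (exp_one_lt_d9.le.trans (by norm_num)) _

theorem lam : LamStatement := by
  intro a b c r s t z0 x0 z1 y1 x y z m n h hmn
  have ha : 0 < a := h.ha
  have hab : a < b := h.hab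
  have hbc : b < c := h.hbc
  have hc4 : 4 ≤ c := by
    by_contra hcon
    push Not at hcon
    have h1 : a = 1 := by omega
    have h2 : b = 2 := by omega
    have h3 := h.hr
    rw [h1, h2] at h3
    have h4 : r < 2 := by
      by_contra hcon
      push Not at hcon
      have := Nat.mul_le_mul hcon hcon
      omega
    interval_cases r <;> omega
  have hA : (1 : ℝ) ≤ a := by exact_mod_cast ha
  have hAB : (a : ℝ) + 1 ≤ b := by exact_mod_cast hab
  have hBC : (b : ℝ) + 1 ≤ c := by exact_mod_cast hbc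
  have hC : (4 : ℝ) ≤ c := by exact_mod_cast hc4
  have hA0 : (0 : ℝ) < a := by linarith
  have hB0 : (0 : ℝ) < b := by linarith
  have hC0 : (0 : ℝ) < c := by linarith
  have hsa : 0 < √(a : ℝ) := sqrt_pos.2 hA0
  have hsb : 0 < √(b : ℝ) := sqrt_pos.2 hB0
  have hsc : 0 < √(c : ℝ) := sqrt_pos.2 hC0
  have haa : √(a : ℝ) * √(a : ℝ) = a := mul_self_sqrt hA0.le
  have hbb : √(b : ℝ) * √(b : ℝ) = b := mul_self_sqrt hB0.le
  have hcc : √(c : ℝ) * √(c : ℝ) = c := mul_self_sqrt hC0.le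
  have hss : (s : ℝ) * s = a * c + 1 := by exact_mod_cast h.hs
  have htt : (t : ℝ) * t = b * c + 1 := by exact_mod_cast h.ht
  have hx0 : (1 : ℝ) ≤ x0 := by exact_mod_cast h.x0pos
  have hy1 : (1 : ℝ) ≤ y1 := by exact_mod_cast h.y1pos
  have hp0 : (a : ℝ) * z0 ^ 2 - c * x0 ^ 2 = a - c := by exact_mod_cast h.p0
  have hp1 : (b : ℝ) * z1 ^ 2 - c * y1 ^ 2 = b - c := by exact_mod_cast h.p1
  have hh0 : 4 * (z0 : ℝ) ^ 2 < (c : ℝ) ^ 2 := by exact_mod_cast h.h0
  have hh1 : 4 * (z1 : ℝ) ^ 2 < (c : ℝ) ^ 2 := by exact_mod_cast h.h1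
  obtain ⟨b1, b2, b3, b4, b5⟩ := bounds a c z0 x0 _ _ hA0 (by linarith) hsa hsc haa hcc
    (by linarith) hx0 hp0 hh0
  obtain ⟨d1, d2, d3, d4, d5⟩ := bounds b c z1 y1 _ _ hB0 (by linarith) hsb hsc hbb hcc
    (by linarith) hy1 hp1 hh1
  obtain ⟨i1, i2⟩ := sqg_real a c s z0 x0 (√(a : ℝ)) (√(c : ℝ)) (by rw [haa]; norm_cast)
    (by rw [hcc]; norm_cast) m
  obtain ⟨j1, j2⟩ := sqg_real b c t z1 y1 (√(b : ℝ)) (√(c : ℝ)) (by rw [hbb]; norm_cast)
    (by rw [hcc]; norm_cast) n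
  rw [h.e1] at i1 i2
  rw [h.e2] at j1 j2
  dsimp only at i1 i2 j1 j2
  have hal : alp a c s = (s : ℝ) + √(a : ℝ) * √(c : ℝ) := by
    rw [alp, Nat.cast_mul, sqrt_mul hA0.le]
  have hbe : alp b c t = (t : ℝ) + √(b : ℝ) * √(c : ℝ) := by
    rw [alp, Nat.cast_mul, sqrt_mul hB0.le]
  have hs0 : (0 : ℝ) ≤ s := Nat.cast_nonneg s
  have ht0 : (0 : ℝ) ≤ t := Nat.cast_nonneg t
  have hsq1 : (√(a : ℝ) * √(c : ℝ)) * (√(a : ℝ) * √(c : ℝ)) = a * c := by
    linear_combination (√(c : ℝ)) ^ 2 * haa + a * hcc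
  have hsq2 : (√(b : ℝ) * √(c : ℝ)) * (√(b : ℝ) * √(c : ℝ)) = b * c := by
    linear_combination (√(c : ℝ)) ^ 2 * hbb + b * hcc
  have hspos : (0 : ℝ) < s := by
    rcases hs0.eq_or_lt with h' | h'
    · rw [← h'] at hss
      have := mul_pos hA0 hC0
      linarith
    · exact h'
  have htpos : (0 : ℝ) < t := by
    rcases ht0.eq_or_lt with h' | h'
    · rw [← h'] at htt
      have := mul_pos hB0 hC0
      linarith
    · exact h'
  have hsac : √(a : ℝ) * √(c : ℝ) ≤ s :=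
    le_of_mul_self' _ _ _ _ hspos hsq1 hss (by linarith)
  have htbc : √(b : ℝ) * √(c : ℝ) ≤ t :=
    le_of_mul_self' _ _ _ _ htpos hsq2 htt (by linarith)
  have hsa1 : 1 ≤ √(a : ℝ) := by rw [one_le_sqrt]; exact hA
  have hsb1 : 1 ≤ √(b : ℝ) := by rw [one_le_sqrt]; linarith
  have h2a : 2 * √(c : ℝ) ≤ alp a c s := by
    rw [hal]
    have := mul_le_mul_of_nonneg_right hsa1 hsc.le
    linarith
  have h2b : 2 * √(c : ℝ) ≤ alp b c t := by
    rw [hbe]
    have := mul_le_mul_of_nonneg_right hsb1 hsc.le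
    linarith
  have hz2 : (2 : ℝ) ≤ z := by exact_mod_cast h.hz
  rw [alp3]
  refine core a b c (√(a : ℝ)) (√(b : ℝ)) (√(c : ℝ)) z
    (x0 * √(c : ℝ) + z0 * √(a : ℝ)) (x0 * √(c : ℝ) - z0 * √(a : ℝ))
    (y1 * √(c : ℝ) + z1 * √(b : ℝ)) (y1 * √(c : ℝ) - z1 * √(b : ℝ))
    (alp a c s) (s - √(a : ℝ) * √(c : ℝ)) (alp b c t) (t - √(b : ℝ) * √(c : ℝ)) m n
    hA (by linarith) (by linarith) hC hsa hsb hsc haa hbb hcc hz2 b1 b2 d1 d2 ?_ ?_ b4 d4 b5 d5
    h2a h2b ?_ ?_ ?_ ?_ hmn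
  · linear_combination x0 ^ 2 * hcc - z0 ^ 2 * haa - hp0
  · linear_combination y1 ^ 2 * hcc - z1 ^ 2 * hbb - hp1
  · rw [hal]
    linear_combination hss - (√(c : ℝ)) ^ 2 * haa - a * hcc
  · rw [hbe]
    linear_combination htt - (√(c : ℝ)) ^ 2 * hbb - b * hcc
  · rw [hal]
    push_cast at i1 i2
    linear_combination i1 - i2
  · rw [hbe]
    push_cast at j1 j2
    linear_combination j1 - j2

end Pool.Agent.DIO.H65
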